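import Mathlib
import Pool.Agent.Lib.MP_cd53cf_al.Main

set_option autoImplicit false

/-!
Rep-Zariski isolated points of the Ziegler spectrum of a noetherian algebra (in particular of an
artin algebra) have finite endolength.  Right modules over `R` are modules over `Rᵐᵒᵖ`.
-/

namespace Pool.Agent.Results.MP_cd53cf_al.IsolatedPoints

/-! ### Definitions -/

/-- A pp condition on `n` free variables for right `R`-modules: it says that there are `bound`
further elements which together with the given elements satisfy `eqs` linear equations; the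
`i`-th equation is `∑ j, x j * free j i + ∑ l, y l * bnd l i = 0`. -/
structure PPCond (R : Type) (n : ℕ) where
  /-- number of quantified variables -/
  bound : ℕ
  /-- number of equations -/
  eqs : ℕ
  /-- coefficients of the free variables -/
  free : Fin n → Fin eqs → R
  /-- coefficients of the quantified variables -/
  bnd : Fin bound → Fin eqs → R

/-- The solution set `φ(M)` of a pp condition in a right module `M`. -/
def PPCond.sol {R : Type} [Ring R] {n : ℕ} (φ : PPCond R n) (M : Type) [AddCommGroup M]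
    [Module Rᵐᵒᵖ M] : Set (Fin n → M) :=
  {x | ∃ y : Fin φ.bound → M, ∀ i : Fin φ.eqs,
    ∑ j, MulOpposite.op (φ.free j i) • x j + ∑ l, MulOpposite.op (φ.bnd l i) • y l = 0}

/-- `ψ ≤ φ`: `ψ(M) ⊆ φ(M)` for all right modules `M`. -/
def PPCond.Le {R : Type} [Ring R] {n : ℕ} (ψ φ : PPCond R n) : Prop :=
  ∀ (M : Type) [AddCommGroup M] [Module Rᵐᵒᵖ M], ψ.sol M ⊆ φ.sol M

/-- `M` is nonzero and is not the direct sum of two nonzero submodules. -/
def Indecomposable (R M : Type) [Ring R] [AddCommGroup M] [Module Rᵐᵒᵖ M] : Prop :=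
  Nontrivial M ∧ ∀ A B : Submodule Rᵐᵒᵖ M, IsCompl A B → A = ⊥ ∨ B = ⊥

/-- Pure monomorphism of right modules: `f` is injective and every finite system of linear
equations with constants in `A` which has a solution in `B` has a solution in `A`. -/
def PureMono {R A B : Type} [Ring R] [AddCommGroup A] [Module Rᵐᵒᵖ A] [AddCommGroup B]
    [Module Rᵐᵒᵖ B] (f : A →ₗ[Rᵐᵒᵖ] B) : Prop :=
  Function.Injective f ∧ ∀ (m n : ℕ) (a : Fin m → Fin n → R) (c : Fin m → A),
    (∃ y : Fin n → B, ∀ i, ∑ j, MulOpposite.op (a i j) • y j = f (c i)) →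
    ∃ x : Fin n → A, ∀ i, ∑ j, MulOpposite.op (a i j) • x j = c i

/-- `N` is pure-injective: homomorphisms to `N` extend along pure monomorphisms. -/
def PureInjective (R N : Type) [Ring R] [AddCommGroup N] [Module Rᵐᵒᵖ N] : Prop :=
  ∀ (A B : Type) [AddCommGroup A] [Module Rᵐᵒᵖ A] [AddCommGroup B] [Module Rᵐᵒᵖ B]
    (f : A →ₗ[Rᵐᵒᵖ] B), PureMono f → ∀ g : A →ₗ[Rᵐᵒᵖ] N, ∃ h : B →ₗ[Rᵐᵒᵖ] N, h ∘ₗ f = g

/-- An indecomposable pure-injective right `R`-module. -/
structure IndPI (R : Type) [Ring R] where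
  /-- the underlying set -/
  carrier : Type
  /-- its group structure -/
  [grp : AddCommGroup carrier]
  /-- its module structure -/
  [mod : Module Rᵐᵒᵖ carrier]
  /-- it is indecomposable -/
  indec : Indecomposable R carrier
  /-- it is pure-injective -/
  pureInj : PureInjective R carrier

attribute [instance] IndPI.grp IndPI.mod

/-- Isomorphism of indecomposable pure-injective modules. -/
def isoSetoid (R : Type) [Ring R] : Setoid (IndPI R) where
  r M N := Nonempty (M.carrier ≃ₗ[Rᵐᵒᵖ] N.carrier)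
  iseqv := ⟨fun _ => ⟨LinearEquiv.refl _ _⟩, fun ⟨e⟩ => ⟨e.symm⟩, fun ⟨e⟩ ⟨f⟩ => ⟨e.trans f⟩⟩

/-- The set of isomorphism classes of indecomposable pure-injective right `R`-modules. -/
def Zg (R : Type) [Ring R] : Type 1 := Quotient (isoSetoid R)

/-- The isomorphism class of `M`. -/
def cls {R : Type} [Ring R] (M : IndPI R) : Zg R := Quotient.mk (isoSetoid R) M

/-- `[φ/ψ]`: the classes of the `M` with `φ(M) = ψ(M)`. -/
def closedPair {R : Type} [Ring R] {n : ℕ} (φ ψ : PPCond R n) : Set (Zg R) :=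
  {q | ∃ M : IndPI R, cls M = q ∧ φ.sol M.carrier = ψ.sol M.carrier}

/-- The rep-Zariski topology: it is generated by the sets `[φ/ψ]`, `ψ ≤ φ`. -/
def repZariski (R : Type) [Ring R] : TopologicalSpace (Zg R) :=
  TopologicalSpace.generateFrom
    {U | ∃ (n : ℕ) (φ ψ : PPCond R n), ψ.Le φ ∧ U = closedPair φ ψ}

/-! ### Comparison with the library -/

open Pool.Agent.RZ

section

variable {R : Type} [Ring R]

/-- pure monomorphisms reflect all pp formulas of the library -/
theorem PureMono.reflect {A B : Type} [AddCommGroup A] [Module Rᵐᵒᵖ A] [AddCommGroup B]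
    [Module Rᵐᵒᵖ B] {f : A →ₗ[Rᵐᵒᵖ] B} (hf : PureMono f) {X : Type} (φ : PP Rᵐᵒᵖ X) (v : X → A)
    (h : sat φ (fun x => f (v x))) : sat φ v := by
  classical
  obtain ⟨y, hy⟩ := h
  -- a bound for the quantified variables
  obtain ⟨P, hP⟩ : ∃ P : ℕ, ∀ e ∈ φ, ∀ n : ℕ, Sum.inr n ∈ e.support → n < P := by
    induction φ with
    | nil => exact ⟨0, fun e he => absurd he List.not_mem_nil⟩
    | cons a l ih =>
      obtain ⟨P, hP⟩ := ih (fun e he => hy e (List.mem_cons_of_mem _ he))
      refine ⟨max P ((a.support.image (fun z => Sum.elim (fun _ => 0) id z)).sup id + 1),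
        fun e he n hn => ?_⟩
      rcases List.mem_cons.1 he with rfl | he
      · have h1 : n ∈ e.support.image (fun z => Sum.elim (fun _ => 0) id z) :=
          Finset.mem_image.2 ⟨Sum.inr n, hn, rfl⟩
        have h2 : n ≤ (e.support.image (fun z => Sum.elim (fun _ => 0) id z)).sup id :=
          Finset.le_sup (f := id) h1
        omega
      · have := hP e he n hn
        omega
  -- evaluation of a form
  have hev : ∀ {M : Type} [AddCommGroup M] [Module Rᵐᵒᵖ M] (w : X → M) (z : ℕ → M)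
      (e : (X ⊕ ℕ) →₀ Rᵐᵒᵖ), e ∈ φ →
      ev (Sum.elim w z) e = ev w (Finsupp.comapDomain Sum.inl e Sum.inl_injective.injOn) +
        ∑ j : Fin P, (e (Sum.inr (j : ℕ))) • z j := by
    intro M _ _ w z e he
    rw [ev_sumElim]
    congr 1
    rw [ev_def, Finsupp.sum]
    have hsub : (Finsupp.comapDomain Sum.inr e Sum.inr_injective.injOn).support ⊆
        Finset.range P := by
      intro n hn
      rw [Finset.mem_range]
      apply hP e he n
      simpa using hn
    rw [Finset.sum_subset hsub (fun n _ hn => by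
      rw [Finsupp.notMem_support_iff] at hn
      rw [hn, zero_smul])]
    rw [← Fin.sum_univ_eq_sum_range (fun n =>
      (Finsupp.comapDomain Sum.inr e Sum.inr_injective.injOn) n • z n) P]
    rfl
  obtain ⟨x, hx⟩ := hf.2 φ.length P (fun i j => (φ.get i (Sum.inr (j : ℕ))).unop)
    (fun i => - ev v (Finsupp.comapDomain Sum.inl (φ.get i) Sum.inl_injective.injOn))
    ⟨fun j => y j, fun i => by
      have h1 := hy (φ.get i) (List.get_mem φ i)
      rw [hev _ _ _ (List.get_mem φ i)] at h1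
      simp only [MulOpposite.op_unop, map_neg]
      rw [← ev_map f v]
      exact eq_neg_of_add_eq_zero_right h1⟩
  refine ⟨fun n => if hn : n < P then x ⟨n, hn⟩ else 0, fun e he => ?_⟩
  obtain ⟨i, rfl⟩ := List.mem_iff_get.1 he
  rw [hev _ _ _ he]
  have h2 := hx i
  simp only [MulOpposite.op_unop] at h2
  rw [← neg_eq_iff_add_eq_zero, ← h2]
  apply Finset.sum_congr rfl
  intro j _
  simp

/-- algebraically compact modules are pure-injective -/
theorem pureInjective_of_ac {N : Type} [AddCommGroup N] [Module Rᵐᵒᵖ N] (hN : AC Rᵐᵒᵖ N) :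
    PureInjective R N := by
  intro A B _ _ _ _ f hf g
  obtain ⟨h, hh⟩ := hN.extend (X := A) (fun a => f a) (fun a => g a) (by
    intro φ hφ
    exact sat_map φ g (hf.reflect φ (fun a => a) hφ))
  exact ⟨h, LinearMap.ext hh⟩

/-- the embedding into the double character module is pure -/
theorem pureMono_iota (N : Type) [AddCommGroup N] [Module Rᵐᵒᵖ N] :
    PureMono (R := R) (DD.iota Rᵐᵒᵖ N) := by
  refine ⟨?_, ?_⟩
  · rw [injective_iff_map_eq_zero]
    intro x hx
    obtain ⟨χ, hχ⟩ := exists_eq (R := Rᵐᵒᵖ) (Finsupp.single () (1 : Rᵐᵒᵖ))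
    have h1 : sat χ (fun _ : Unit => DD.iota Rᵐᵒᵖ N x) := by
      rw [hχ]; simp [hx]
    have h2 := DD.pure χ (fun _ : Unit => x) h1
    rw [hχ] at h2
    simpa using h2
  · rintro m n a c ⟨y, hy⟩
    obtain ⟨χ, hχ⟩ := exists_of_list (R := Rᵐᵒᵖ) (X := Fin m) (I := Fin n)
      (List.ofFn (fun i => (∑ j, Finsupp.single (Sum.inr j) (MulOpposite.op (a i j))) -
        Finsupp.single (Sum.inl i) 1))
    have key : ∀ {M : Type} [AddCommGroup M] [Module Rᵐᵒᵖ M] (w : Fin m → M) (z : Fin n → M)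
        (i : Fin m), ev (Sum.elim w z) ((∑ j, Finsupp.single (Sum.inr j)
          (MulOpposite.op (a i j))) - Finsupp.single (Sum.inl i) 1) =
          (∑ j, MulOpposite.op (a i j) • z j) - w i := by
      intro M _ _ w z i
      have hs : ∀ {ι : Type} (s : Finset ι) (f : ι → ((Fin m ⊕ Fin n) →₀ Rᵐᵒᵖ)),
          ev (Sum.elim w z) (∑ j ∈ s, f j) = ∑ j ∈ s, ev (Sum.elim w z) (f j) := by
        intro ι s f
        exact map_sum (Finsupp.linearCombination Rᵐᵒᵖ (Sum.elim w z)) f s
      rw [ev_sub, hs]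
      simp
    have h1 : sat χ (fun i => DD.iota Rᵐᵒᵖ N (c i)) := by
      rw [hχ]
      refine ⟨y, fun e he => ?_⟩
      rw [List.mem_ofFn] at he
      obtain ⟨i, rfl⟩ := he
      rw [key, hy i, sub_self]
    have h2 := DD.pure χ c h1
    rw [hχ] at h2
    obtain ⟨x, hx⟩ := h2
    refine ⟨x, fun i => ?_⟩
    have h3 := hx _ (by rw [List.mem_ofFn]; exact ⟨i, rfl⟩)
    rw [key] at h3
    exact sub_eq_zero.1 h3

/-- pure-injective modules are algebraically compact -/
theorem ac_of_pureInjective {N : Type} [AddCommGroup N] [Module Rᵐᵒᵖ N]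
    (hN : PureInjective R N) : AC Rᵐᵒᵖ N := by
  obtain ⟨h, hh⟩ := hN N (DD N) (DD.iota Rᵐᵒᵖ N) (pureMono_iota N) LinearMap.id
  exact AC.retract DD.ac (DD.iota Rᵐᵒᵖ N) h (fun x => LinearMap.congr_fun hh x)

/-- matrix pp conditions as pp formulas of the library -/
theorem exists_pp {n : ℕ} (φ : PPCond R n) : ∃ χ : PP Rᵐᵒᵖ (Fin n),
    ∀ (M : Type) [AddCommGroup M] [Module Rᵐᵒᵖ M] (x : Fin n → M), sat χ x ↔ x ∈ φ.sol M := by
  obtain ⟨χ, hχ⟩ := exists_matrix (R := Rᵐᵒᵖ) (fun i j => MulOpposite.op (φ.free j i))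
    (fun i l => MulOpposite.op (φ.bnd l i))
  exact ⟨χ, fun M _ _ x => hχ M x⟩

theorem mem_closedPair {n : ℕ} {φ ψ : PPCond R n} {M : IndPI R} (hle : ψ.Le φ) :
    cls M ∈ closedPair φ ψ ↔ φ.sol M.carrier ⊆ ψ.sol M.carrier := by
  constructor
  · rintro ⟨M', hM', h⟩
    obtain ⟨e⟩ : Nonempty (M'.carrier ≃ₗ[Rᵐᵒᵖ] M.carrier) := Quotient.exact hM'
    intro x hx
    obtain ⟨χ, hχ⟩ := exists_pp φ
    obtain ⟨χ', hχ'⟩ := exists_pp ψ
    have h1 : sat χ (fun j => e.symm (x j)) :=
      sat_map χ e.symm.toLinearMap ((hχ _ x).2 hx)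
    have h2 : (fun j => e.symm (x j)) ∈ ψ.sol M'.carrier := h ▸ ((hχ _ _).1 h1)
    have h3 := sat_map χ' e.toLinearMap ((hχ' _ _).2 h2)
    rw [hχ'] at h3
    simpa using h3
  · intro h
    exact ⟨M, rfl, Set.Subset.antisymm h (hle M.carrier)⟩

/-- a finite family of conditions is given by a single pair -/
theorem exists_single (f : Set (Set (Zg R))) (hf : f.Finite)
    (hS : f ⊆ {U | ∃ (n : ℕ) (φ ψ : PPCond R n), ψ.Le φ ∧ U = closedPair φ ψ}) :
    ∃ (X : Type) (_ : Finite X) (φ ψ : PP Rᵐᵒᵖ X), ∀ M : IndPI R,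
      cls M ∈ ⋂₀ f ↔ InD φ ψ M.carrier := by
  induction f, hf using Set.Finite.induction_on with
  | empty =>
    obtain ⟨χ, hχ⟩ := exists_true (R := Rᵐᵒᵖ) (X := Empty)
    exact ⟨Empty, inferInstance, χ, χ, fun M => ⟨fun _ v h => h, fun _ => by simp⟩⟩
  | @insert U f hU hf ih =>
    obtain ⟨X, hX, φ, ψ, h⟩ := ih (fun V hV => hS (Set.mem_insert_of_mem _ hV))
    obtain ⟨n, φ₁, ψ₁, hle, rfl⟩ := hS (Set.mem_insert U f)
    obtain ⟨χ, hχ⟩ := exists_pp φ₁
    obtain ⟨χ', hχ'⟩ := exists_pp ψ₁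
    obtain ⟨α, hα⟩ := exists_rename χ (Sum.inl : Fin n → Fin n ⊕ X)
    obtain ⟨α', hα'⟩ := exists_rename χ' (Sum.inl : Fin n → Fin n ⊕ X)
    obtain ⟨β, hβ⟩ := exists_rename φ (Sum.inr : X → Fin n ⊕ X)
    obtain ⟨β', hβ'⟩ := exists_rename ψ (Sum.inr : X → Fin n ⊕ X)
    obtain ⟨γ, hγ⟩ := exists_and α β
    obtain ⟨γ', hγ'⟩ := exists_and α' β'
    refine ⟨Fin n ⊕ X, inferInstance, γ, γ', fun M => ?_⟩
    rw [Set.sInter_insert, Set.mem_inter_iff, h M, mem_closedPair hle]
    constructor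
    · rintro ⟨h1, h2⟩ v hv
      rw [hγ, hα, hβ] at hv
      rw [hγ', hα', hβ']
      exact ⟨(hχ' _ _).2 (h1 ((hχ _ _).1 hv.1)), h2 _ hv.2⟩
    · intro h1
      constructor
      · intro x hx
        have h2 := h1 (Sum.elim x (fun _ => 0)) (by
          rw [hγ, hα, hβ]
          exact ⟨(hχ _ _).2 hx, sat_zero φ⟩)
        rw [hγ', hα'] at h2
        exact (hχ' _ _).1 h2.1
      · intro x hx
        have h2 := h1 (Sum.elim (fun _ => 0) x) (by
          rw [hγ, hα, hβ]
          exact ⟨sat_zero χ, hx⟩)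
        rw [hγ', hβ'] at h2
        exact h2.2

end

/-- Let `R` be a ring which is finitely generated as a module over a commutative noetherian ring
`k` acting centrally (for instance an artin algebra).  If the isomorphism class of an
indecomposable pure-injective right `R`-module `N` is an isolated point of the rep-Zariski
topology, then `N` has finite length as a left module over its endomorphism ring. -/
theorem result (k R : Type) [CommRing k] [IsNoetherianRing k] [Ring R] [Algebra k R]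
    [Module.Finite k R] (N : IndPI R) (hN : @IsOpen (Zg R) (repZariski R) {cls N}) :
    IsFiniteLength (Module.End Rᵐᵒᵖ N.carrier) N.carrier := by
  let _ := repZariski R
  have hbasis := TopologicalSpace.isTopologicalBasis_of_subbasis (t := repZariski R) rfl
  obtain ⟨V, ⟨f, ⟨hfin, hfS⟩, rfl⟩, hmem, hsub⟩ :=
    hbasis.exists_subset_of_mem_open (Set.mem_singleton (cls N)) hN
  obtain ⟨X, hX, φ, ψ, h⟩ := exists_single f hfin hfS
  have : Module.Finite k Rᵐᵒᵖ := Module.Finite.equiv (MulOpposite.opLinearEquiv k)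
  refine finite_endolength (k := k) φ ψ ⟨N.indec, ac_of_pureInjective N.pureInj,
    (h N).1 hmem, ?_⟩
  intro M _ _ hM1 hM2 hM3
  let M' : IndPI R := ⟨M, hM1, pureInjective_of_ac hM2⟩
  have h1 : cls M' ∈ ({cls N} : Set (Zg R)) := hsub ((h M').2 hM3)
  exact Quotient.exact (Set.mem_singleton_iff.1 h1)

end Pool.Agent.Results.MP_cd53cf_al.IsolatedPoints
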